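import Mathlib
import Pool.Agent.W750.WAP.Mean

/-!
# MP_c68506_an: fixed points of nonexpansive actions of semigroups with an invariant mean on WAP(S)

Positive answer to Q1: every semitopological semigroup `S` (separable or not) such that `WAP(S)`
has a left invariant mean has property (F).
-/

set_option autoImplicit false
set_option linter.unusedSectionVars false

open Filter Topology Set BoundedContinuousFunction

namespace Pool.Agent.Results.MP_c68506_an.WAPNonexpansive

universe u v w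

/-- A semitopological semigroup: a semigroup with a Hausdorff topology for which multiplication is
separately continuous. -/
class SemitopSemigroup (S : Type u) [Semigroup S] [TopologicalSpace S] : Prop where
  hausdorff : T2Space S
  continuous_left : ∀ t : S, Continuous fun s : S => t * s
  continuous_right : ∀ t : S, Continuous fun s : S => s * t

section means

variable {𝕜 : Type} [RCLike 𝕜] {S : Type u} [Semigroup S] [TopologicalSpace S]
  [SemitopSemigroup S]

/-- The left translate `(ℓ_a f)(t) = f (a t)`. -/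
noncomputable def ltrans (a : S) (f : S →ᵇ 𝕜) : S →ᵇ 𝕜 :=
  f.compContinuous ⟨fun t => a * t, SemitopSemigroup.continuous_left a⟩

lemma ltrans_apply (a : S) (f : S →ᵇ 𝕜) (t : S) : ltrans a f t = f (a * t) := rfl

/-- `f` is weakly almost periodic: its orbit `{ℓ_s f : s ∈ S}` is relatively weakly compact in the
Banach space `C_b(S)`, that is, its weak closure is weakly compact. -/
def IsWAP (f : S →ᵇ 𝕜) : Prop :=
  IsCompact (closure (toWeakSpace 𝕜 (S →ᵇ 𝕜) '' range fun s : S => ltrans s f))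

lemma IsWAP.of_subset {f : S →ᵇ 𝕜} {L : Set (WeakSpace 𝕜 (S →ᵇ 𝕜))} (hL : IsCompact L)
    (h : ∀ s : S, toWeakSpace 𝕜 (S →ᵇ 𝕜) (ltrans s f) ∈ L) : IsWAP f := by
  refine hL.closure_of_subset ?_
  rintro _ ⟨_, ⟨s, rfl⟩, rfl⟩
  exact h s

lemma IsWAP.mem {f : S →ᵇ 𝕜} (s : S) : toWeakSpace 𝕜 (S →ᵇ 𝕜) (ltrans s f) ∈
    closure (toWeakSpace 𝕜 (S →ᵇ 𝕜) '' range fun s : S => ltrans s f) :=
  subset_closure ⟨_, ⟨s, rfl⟩, rfl⟩

variable (𝕜 S) in
/-- `WAP(S)`: the space of the weakly almost periodic functions. -/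
def WAP : Submodule 𝕜 (S →ᵇ 𝕜) where
  carrier := {f | IsWAP f}
  add_mem' := by
    intro f g hf hg
    refine IsWAP.of_subset (hf.add hg) fun s => ?_
    have h : ltrans s (f + g) = ltrans s f + ltrans s g := by
      ext t; rfl
    rw [h, map_add]
    exact add_mem_add (IsWAP.mem s) (IsWAP.mem s)
  zero_mem' := by
    refine IsWAP.of_subset (isCompact_singleton (x := 0)) fun s => ?_
    have h : ltrans s (0 : S →ᵇ 𝕜) = 0 := by
      ext t; rfl
    rw [h, map_zero]
    exact mem_singleton _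
  smul_mem' := by
    intro c f hf
    refine IsWAP.of_subset (hf.image (continuous_const_smul c)) fun s => ?_
    have h : ltrans s (c • f) = c • ltrans s f := by
      ext t; rfl
    rw [h, map_smul]
    exact ⟨_, IsWAP.mem s, rfl⟩

lemma mem_WAP {f : S →ᵇ 𝕜} : f ∈ WAP 𝕜 S ↔ IsWAP f := Iff.rfl

/-- Left translates of weakly almost periodic functions are weakly almost periodic. -/
lemma ltrans_mem_WAP (a : S) {f : S →ᵇ 𝕜} (hf : f ∈ WAP 𝕜 S) : ltrans a f ∈ WAP 𝕜 S := by
  refine IsWAP.of_subset (mem_WAP.1 hf) fun s => ?_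
  have h : ltrans s (ltrans a f) = ltrans (a * s) f := by
    ext t
    simp only [ltrans_apply, mul_assoc]
  rw [h]
  exact IsWAP.mem _

/-- The constant function `1` is weakly almost periodic. -/
lemma one_mem_WAP : (1 : S →ᵇ 𝕜) ∈ WAP 𝕜 S := by
  refine IsWAP.of_subset (isCompact_singleton (x := toWeakSpace 𝕜 (S →ᵇ 𝕜) 1)) fun s => ?_
  have h : ltrans s (1 : S →ᵇ 𝕜) = 1 := by
    ext t; rfl
  rw [h]
  exact mem_singleton _

/-- A left invariant mean on `WAP(S)`: a linear functional `m` with `m ≥ 0`, `m 1 = 1` and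
`m (ℓ_s f) = m f`. -/
structure IsLIM (m : WAP 𝕜 S →ₗ[𝕜] 𝕜) : Prop where
  nonneg : ∀ f : WAP 𝕜 S, (∀ s, 0 ≤ RCLike.re (f.1 s) ∧ RCLike.im (f.1 s) = 0) →
    0 ≤ RCLike.re (m f) ∧ RCLike.im (m f) = 0
  one : m ⟨1, one_mem_WAP⟩ = 1
  invariant : ∀ (s : S) (f : WAP 𝕜 S), m ⟨ltrans s f.1, ltrans_mem_WAP s f.2⟩ = m f

end means

section repr

variable {𝕂 : Type} [RCLike 𝕂] {S : Type u} [Semigroup S] [TopologicalSpace S]
  {E : Type v} [AddCommGroup E] [Module 𝕂 E] [TopologicalSpace E] {ι : Type w}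

/-- The underlying vector of a point of the space with its weak topology. -/
noncomputable def vec (x : WeakSpace 𝕂 E) : E := (toWeakSpace 𝕂 E).symm x

/-- `T` is a weakly separately continuous, weakly quasi-equicontinuous, `Q`-nonexpansive
representation of `S` on the set `C` of `E`, where `C` carries the weak topology. -/
structure IsRep (Q : SeminormFamily 𝕂 E ι) (C : Set (WeakSpace 𝕂 E)) (T : S → C → C) : Prop where
  /-- `T_{st} = T_s ∘ T_t` -/
  mul : ∀ s t x, T (s * t) x = T s (T t x)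
  /-- `(s, x) ↦ T_s x` is separately continuous for the weak topology of `C` -/
  continuous_left : ∀ x, Continuous fun s => T s x
  continuous_right : ∀ s, Continuous (T s)
  /-- every map in the closure of `{T_s}` in the product space `C ^ C` is weakly continuous -/
  quasi_equicontinuous : ∀ f ∈ closure (range T), Continuous f
  /-- `p (T_s x - T_s y) ≤ p (x - y)` for all `p ∈ Q` -/
  nonexpansive : ∀ (s : S) (i : ι) (x y : C),
    Q i (vec (T s x).1 - vec (T s y).1) ≤ Q i (vec x.1 - vec y.1)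

variable (𝕂 S) in
/-- Property (F): every weakly separately continuous, weakly quasi-equicontinuous,
`Q`-nonexpansive representation of `S` on every nonempty weakly compact convex subset `C` of every
Hausdorff locally convex space `E` over `𝕂` whose topology is given by the family `Q` of seminorms
has a common fixed point. -/
def PropertyF : Prop :=
  ∀ (E : Type v) [AddCommGroup E] [Module 𝕂 E] [TopologicalSpace E] [T2Space E] (ι : Type w)
    (Q : SeminormFamily 𝕂 E ι), WithSeminorms Q →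
    ∀ C : Set (WeakSpace 𝕂 E), C.Nonempty → IsCompact C →
      (∀ x ∈ C, ∀ y ∈ C, ∀ t : ℝ, 0 ≤ t → t ≤ 1 →
        ((t : 𝕂) • x + ((1 - t : ℝ) : 𝕂) • y : WeakSpace 𝕂 E) ∈ C) →
      ∀ T : S → C → C, IsRep Q C T → ∃ x : C, ∀ s : S, T s x = x

end repr

section proof

variable {𝕂 : Type} [RCLike 𝕂] {E : Type v} [AddCommGroup E] [Module 𝕂 E]

/-- the space with a single seminorm -/
def Sp (_ : Seminorm 𝕂 E) : Type v := E

noncomputable instance (p : Seminorm 𝕂 E) : SeminormedAddCommGroup (Sp p) :=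
  p.toAddGroupSeminorm.toSeminormedAddCommGroup

instance (p : Seminorm 𝕂 E) : Module 𝕂 (Sp p) := inferInstanceAs (Module 𝕂 E)

noncomputable instance (p : Seminorm 𝕂 E) : NormedSpace 𝕂 (Sp p) where
  norm_smul_le a x := (map_smul_eq_mul p a x).le

lemma norm_Sp (p : Seminorm 𝕂 E) (x : Sp p) : ‖x‖ = p x := rfl

variable [TopologicalSpace E]

/-- functionals on the seminormed spaces are weakly continuous -/
lemma continuous_Sp [IsTopologicalAddGroup E] (p : Seminorm 𝕂 E) (hp : Continuous p)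
    (φ : StrongDual 𝕂 (Sp p)) :
    Continuous fun x : WeakSpace 𝕂 E => φ (vec x : E) := by
  let f : E →ₗ[𝕂] 𝕂 :=
    { toFun := fun x => φ (x : Sp p)
      map_add' := fun x y => φ.map_add (x : Sp p) y
      map_smul' := fun c x => φ.map_smul c (x : Sp p) }
  have hf : Continuous f := by
    refine continuous_of_continuousAt_zero f ?_
    rw [ContinuousAt, map_zero]
    have h1 : Tendsto (fun x : E => ‖φ‖ * p x) (𝓝 0) (𝓝 0) := by
      have : Continuous fun x : E => ‖φ‖ * p x := continuous_const.mul hp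
      have h2 := this.tendsto 0
      simpa using h2
    refine squeeze_zero_norm (fun x => ?_) h1
    exact φ.le_opNorm (x : Sp p)
  exact WeakBilin.eval_continuous (topDualPairing 𝕂 E).flip (⟨f, hf⟩ : StrongDual 𝕂 E)

end proof

open Pool.Agent.W750.WAP in
/-- **Affirmative answer to Q1 of MP_c68506_an.** If `WAP(S)` has a left invariant mean, then the
semitopological semigroup `S` has property (F). -/
theorem result {𝕜 𝕂 : Type} [RCLike 𝕜] [RCLike 𝕂] (S : Type u) [Semigroup S]
    [TopologicalSpace S] [SemitopSemigroup S] (hm : ∃ m : WAP 𝕜 S →ₗ[𝕜] 𝕜, IsLIM m) :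
    PropertyF.{u, v, w} 𝕂 S := by
  obtain ⟨m, hm⟩ := hm
  intro E _ _ _ _ ι Q hQ C hCne hCcomp hCconv T hT
  have iS : Nonempty S := by
    by_contra hne
    rw [not_nonempty_iff] at hne
    have h1 : (1 : S →ᵇ 𝕜) = 0 := by
      ext s
      exact hne.elim s
    have h2 : (⟨1, one_mem_WAP⟩ : WAP 𝕜 S) = 0 := Subtype.ext h1
    have h3 := hm.one
    rw [h2, map_zero] at h3
    exact zero_ne_one h3
  have iG : IsTopologicalAddGroup E := hQ.topologicalAddGroup
  have iK : CompactSpace C := isCompact_iff_compactSpace.mp hCcomp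
  have iKn : Nonempty C := hCne.to_subtype
  let j : ∀ i, C → Sp (Q i) := fun i x => (vec x.1 : E)
  have hj : ∀ i, ∀ φ : StrongDual 𝕂 (Sp (Q i)), Continuous fun k => φ (j i k) := fun i φ =>
    (continuous_Sp (Q i) (hQ.continuous_seminorm i) φ).comp continuous_subtype_val
  have hnorm : ∀ i (x y : C), ‖j i x - j i y‖ = Q i (vec x.1 - vec y.1) := fun i x y => rfl
  have hsep : ∀ x y : C, (∀ i, ‖j i x - j i y‖ = 0) → x = y := by
    intro x y h
    by_contra hne
    have h1 : vec x.1 - vec y.1 ≠ 0 := by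
      intro h0
      apply hne
      apply Subtype.ext
      exact (toWeakSpace 𝕂 E).symm.injective (sub_eq_zero.1 h0)
    obtain ⟨i, hi⟩ := hQ.separating_of_T1 _ h1
    exact hi (by rw [← hnorm]; exact h i)
  have iT2 : T2Space C := by
    refine ⟨fun x y hxy => ?_⟩
    obtain ⟨i, hi⟩ : ∃ i, ‖j i x - j i y‖ ≠ 0 := by
      by_contra hcon
      push Not at hcon
      exact hxy (hsep x y hcon)
    obtain ⟨φ, -, hφ⟩ := exists_dual_vector 𝕂 (j i x - j i y) hi
    refine separated_by_continuous (hj i φ) ?_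
    intro h
    rw [map_sub, h, sub_self] at hφ
    apply hi
    exact_mod_cast hφ.symm
  have hc : ∀ σ ∈ Env T, Continuous σ := hT.quasi_equicontinuous
  have hmul : ∀ s t, T (s * t) = T s ∘ T t := fun s t => funext fun x => hT.mul s t x
  -- the mean on the enveloping semigroup
  have hwap : ∀ g : C({σ // σ ∈ Env T}, ℝ), emb (𝕜 := 𝕜) T hT.continuous_left g ∈ WAP 𝕜 S :=
    fun g => isCompact_closure_emb SemitopSemigroup.continuous_left hT.continuous_left hc hmul g
  let Λ : C({σ // σ ∈ Env T}, ℝ) →ₗ[ℝ] ℝ :=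
    { toFun := fun g => RCLike.re (m ⟨emb T hT.continuous_left g, hwap g⟩)
      map_add' := by
        intro g h
        have h1 : (⟨emb T hT.continuous_left (g + h), hwap (g + h)⟩ : WAP 𝕜 S) =
            ⟨emb T hT.continuous_left g, hwap g⟩ + ⟨emb T hT.continuous_left h, hwap h⟩ :=
          Subtype.ext (emb_add hT.continuous_left g h)
        rw [h1, map_add, map_add]
      map_smul' := by
        intro c g
        have h1 : (⟨emb T hT.continuous_left (c • g), hwap (c • g)⟩ : WAP 𝕜 S) =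
            (c : 𝕜) • ⟨emb T hT.continuous_left g, hwap g⟩ :=
          Subtype.ext (emb_smul hT.continuous_left c g)
        rw [h1, map_smul, smul_eq_mul, RCLike.re_ofReal_mul, RingHom.id_apply, smul_eq_mul] }
  have hΛ : ∀ g, Λ g = RCLike.re (m ⟨emb T hT.continuous_left g, hwap g⟩) := fun _ => rfl
  have hpos : ∀ g : C({σ // σ ∈ Env T}, ℝ), (∀ σ, 0 ≤ g σ) → 0 ≤ Λ g := by
    intro g hg
    rw [hΛ]
    refine (hm.nonneg _ fun s => ?_).1
    rw [emb_apply, RCLike.ofReal_re, RCLike.ofReal_im]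
    exact ⟨hg _, rfl⟩
  have hone : Λ 1 = 1 := by
    have h1 : (⟨emb T hT.continuous_left 1, hwap 1⟩ : WAP 𝕜 S) = ⟨1, one_mem_WAP⟩ := by
      apply Subtype.ext
      ext s
      rw [emb_apply]
      simp
    rw [hΛ, h1, hm.one, RCLike.one_re]
  have hinv : ∀ a g, Λ (lenv hc hmul ⟨T a, subset_closure ⟨a, rfl⟩⟩ g) = Λ g := by
    intro a g
    rw [hΛ, hΛ]
    have h1 : (⟨emb T hT.continuous_left (lenv hc hmul ⟨T a, subset_closure ⟨a, rfl⟩⟩ g), hwap _⟩ :
        WAP 𝕜 S) = ⟨ltrans a (emb T hT.continuous_left g), ltrans_mem_WAP a (hwap g)⟩ :=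
      Subtype.ext (lt_emb SemitopSemigroup.continuous_left hT.continuous_left hc hmul a g).symm
    rw [h1]
    exact congrArg _ (hm.invariant a ⟨emb T hT.continuous_left g, hwap g⟩)
  have hint := exists_inter hc hmul Λ hpos hone hinv
  -- midpoints
  have hhalf : ∀ x y : C, ((2⁻¹ : ℝ) : 𝕂) • x.1 + ((1 - 2⁻¹ : ℝ) : 𝕂) • y.1 ∈ C := fun x y =>
    hCconv x.1 x.2 y.1 y.2 _ (by norm_num) (by norm_num)
  let mid : C → C → C := fun x y => ⟨_, hhalf x y⟩
  have hmid : ∀ i x y z, ‖j i (mid x y) - j i z‖ ≤ (‖j i x - j i z‖ + ‖j i y - j i z‖) / 2 := by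
    intro i x y z
    rw [hnorm, hnorm, hnorm]
    have e1 : vec (mid x y).1 - vec z.1 = ((2⁻¹ : ℝ) : 𝕂) • (vec x.1 - vec z.1) +
        ((2⁻¹ : ℝ) : 𝕂) • (vec y.1 - vec z.1) := by
      have e2 : vec (mid x y).1 = ((2⁻¹ : ℝ) : 𝕂) • vec x.1 + ((1 - 2⁻¹ : ℝ) : 𝕂) • vec y.1 := rfl
      have e3 : (1 - 2⁻¹ : ℝ) = 2⁻¹ := by norm_num
      have e4 : vec z.1 = (((2⁻¹ : ℝ) : 𝕂) + ((2⁻¹ : ℝ) : 𝕂)) • vec z.1 := by
        rw [← RCLike.ofReal_add]
        norm_num
      rw [e2, e3, smul_sub, smul_sub]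
      nth_rewrite 1 [e4]
      rw [add_smul]
      abel
    rw [e1]
    refine (map_add_le_add (Q i) _ _).trans ?_
    rw [map_smul_eq_mul, map_smul_eq_mul, RCLike.norm_ofReal]
    rw [abs_of_pos (by norm_num : (0 : ℝ) < 2⁻¹)]
    linarith
  exact exists_fixed (𝕂 := 𝕂) j hj hsep mid hmid T hc (fun s t => ⟨s * t, hmul s t⟩) hint
    (fun s i x y => hT.nonexpansive s i x y)

end Pool.Agent.Results.MP_c68506_an.WAPNonexpansive
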